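import Pool.Agent.Q96.ID.Stm

/-!
# Project ID, job QUOT: quotients of Banach spaces
-/

set_option autoImplicit false

open Set Filter Topology

namespace Q65.ID.QUOT

open Q96.ID

theorem t_QUOT : S_QUOT := by
  intro 𝕜 _ X _ _ _
  have h1 : ∀ S : Submodule 𝕜 X, IsClosed (S : Set X) → ∃ (Q : Type) (_ : NormedAddCommGroup Q)
      (_ : NormedSpace 𝕜 Q) (_ : CompleteSpace Q) (q : X →L[𝕜] Q), SES S.subtypeL q := by
    intro S hS
    have : IsClosed (S : Set X) := hS
    refine ⟨X ⧸ S, inferInstance, inferInstance, inferInstance, S.mkQL, ?_⟩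
    refine ⟨Subtype.val_injective, fun b => ?_, fun y => ?_⟩
    · have e : S.mkQL b = S.mkQ b := rfl
      rw [e, Submodule.mkQ_apply, Submodule.Quotient.mk_eq_zero]
      constructor
      · intro h
        exact ⟨⟨b, h⟩, rfl⟩
      · rintro ⟨a, rfl⟩
        exact a.2
    · obtain ⟨x, hx⟩ := Submodule.mkQ_surjective S y
      exact ⟨x, hx⟩
  refine ⟨h1, ?_⟩
  intro Z _ _ _ i c hi
  have hanti : AntilipschitzWith (Real.toNNReal c) i := by
    refine AddMonoidHomClass.antilipschitz_of_bound i fun z => (hi z).trans ?_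
    exact mul_le_mul_of_nonneg_right (Real.le_coe_toNNReal c) (norm_nonneg _)
  have hcl : IsClosed (Set.range i) := hanti.isClosed_range i.uniformContinuous
  obtain ⟨Q, a1, a2, a3, q, hq⟩ := h1 (LinearMap.range (i : Z →ₗ[𝕜] X)) (by
    rw [LinearMap.coe_range]
    exact hcl)
  refine ⟨Q, a1, a2, a3, q, hanti.injective, fun b => ?_, hq.surj⟩
  rw [hq.ker b]
  constructor
  · rintro ⟨⟨_, z, rfl⟩, rfl⟩
    exact ⟨z, rfl⟩
  · rintro ⟨z, rfl⟩
    exact ⟨⟨i z, z, rfl⟩, rfl⟩

end Q65.ID.QUOT
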